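import Pool.Agent.ISO.StmtsR

/-!
# ISO block R, row PWI (helper67): derivatives of powers
-/

set_option autoImplicit false

namespace Pool.Agent.ISO.R.H67

open Finset Pool.Agent.Helper6_Mono Pool.Agent.Helper32_OMP Pool.Agent.ISO Pool.Agent.ISO.R

theorem pderiv_eval {σ : Type} (i : σ) (Q : Polynomial (MvPolynomial σ ℂ)) (m : ℕ)
    (hm : Q.natDegree ≤ m) : ∃ Qd : Polynomial (MvPolynomial σ ℂ), Qd.natDegree ≤ m ∧
      ∀ n : ℕ, Qd.eval (n : MvPolynomial σ ℂ) =
        MvPolynomial.pderiv i (Q.eval (n : MvPolynomial σ ℂ)) := by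
  refine ⟨∑ k ∈ range (Q.natDegree + 1), Polynomial.monomial k (MvPolynomial.pderiv i (Q.coeff k)),
    ?_, ?_⟩
  · apply Polynomial.natDegree_sum_le_of_forall_le
    intro k hk
    rw [Finset.mem_range] at hk
    exact (Polynomial.natDegree_monomial_le _).trans (by omega)
  · intro n
    rw [Polynomial.eval_finsetSum, Polynomial.eval_eq_sum_range, map_sum]
    refine Finset.sum_congr rfl fun k _ => ?_
    rw [Polynomial.eval_monomial, Derivation.leibniz]
    have h : MvPolynomial.pderiv i ((n : MvPolynomial σ ℂ) ^ k) = 0 := by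
      have h1 : ((n : MvPolynomial σ ℂ) ^ k) = ((n ^ k : ℕ) : MvPolynomial σ ℂ) := by
        push_cast
        rfl
      rw [h1]
      exact Derivation.map_natCast _ _
    rw [h, smul_zero, zero_add, smul_eq_mul, mul_comm]

theorem pow_rule {σ : Type} (i : σ) (G : MvPolynomial σ ℂ) (m : ℕ) :
    G * MvPolynomial.pderiv i (G ^ m) = (m : MvPolynomial σ ℂ) * G ^ m *
      MvPolynomial.pderiv i G := by
  induction m with
  | zero =>
    have h : MvPolynomial.pderiv i (1 : MvPolynomial σ ℂ) = 0 := Derivation.map_one_eq_zero _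
    rw [pow_zero, h]
    simp
  | succ m ih =>
    rw [pow_succ, Derivation.leibniz, smul_eq_mul, smul_eq_mul]
    push_cast
    have h : G * (G ^ m * MvPolynomial.pderiv i G + G * MvPolynomial.pderiv i (G ^ m)) =
        G ^ m * G * MvPolynomial.pderiv i G + G * (G * MvPolynomial.pderiv i (G ^ m)) := by ring
    rw [h, ih]
    ring

theorem pwi : PwiStmt := by
  intro σ G w
  induction w with
  | nil =>
    refine ⟨1, by simp, ?_⟩
    intro n
    show G ^ (n + 1) * G ^ 0 = _
    simp
  | cons i v ih =>
    obtain ⟨Q, hQd, hQ⟩ := ih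
    obtain ⟨m, hm⟩ : ∃ m, m = v.length := ⟨_, rfl⟩
    rw [← hm] at hQd hQ
    obtain ⟨Qd, h1, h2⟩ := pderiv_eval i Q m hQd
    refine ⟨Polynomial.C G * Qd + (Polynomial.X + Polynomial.C (1 - (m : MvPolynomial σ ℂ))) *
      (Polynomial.C (MvPolynomial.pderiv i G) * Q), ?_, ?_⟩
    · rw [List.length_cons, ← hm]
      refine (Polynomial.natDegree_add_le _ _).trans (max_le ?_ ?_)
      · refine (Polynomial.natDegree_C_mul_le _ _).trans ?_
        omega
      · refine Polynomial.natDegree_mul_le.trans ?_
        have h3 : (Polynomial.X + Polynomial.C (1 - (m : MvPolynomial σ ℂ))).natDegree ≤ 1 :=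
          (Polynomial.natDegree_X_add_C _).le
        have h4 := (Polynomial.natDegree_C_mul_le (MvPolynomial.pderiv i G) Q).trans hQd
        omega
    · intro n
      show MvPolynomial.pderiv i (dWord v (G ^ (n + 1))) * G ^ (i :: v).length = _
      rw [List.length_cons, ← hm]
      have h3 := congrArg (MvPolynomial.pderiv i) (hQ n)
      rw [Derivation.leibniz, Derivation.leibniz, smul_eq_mul, smul_eq_mul, smul_eq_mul,
        smul_eq_mul, ← h2] at h3
      have h4 := pow_rule i G m
      have h5 := pow_rule i G (n + 1)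
      have h6 := hQ n
      rw [Polynomial.eval_add, Polynomial.eval_mul, Polynomial.eval_C, Polynomial.eval_mul,
        Polynomial.eval_mul, Polynomial.eval_add, Polynomial.eval_X, Polynomial.eval_C,
        Polynomial.eval_C]
      push_cast at h5
      linear_combination G * h3 - dWord v (G ^ (n + 1)) * h4 +
        Polynomial.eval (n : MvPolynomial σ ℂ) Q * h5 - (m : MvPolynomial σ ℂ) *
          MvPolynomial.pderiv i G * h6

end Pool.Agent.ISO.R.H67
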